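import Pool.Agent.Lib.MP_6bc78b_nt.GP.Iface

/-! Project GP: module AVG (a good `δ` exists). -/

set_option autoImplicit false

open Complex Filter Topology MeasureTheory ArithmeticFunction Set
open scoped ENNReal

namespace Pool.Agent.Lib.MP_6bc78b_nt.GP

open Pool.Agent.Lib.MP_6bc78b_nt.MS Pool.Agent.Lib.MP_6bc78b_nt.MS.P1

namespace H4

/-- The series of `E` converges for `Re z > 0`. -/
theorem summable_EE (h4 : DX2Statement) (A B : ℝ) {z : ℂ} (hz : 0 < z.re) :
    Summable fun n : ℕ => (bn A B n : ℂ) * Complex.exp (-(n * z)) := by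
  obtain ⟨-, -, C, hC, hb⟩ := h4 A B
  have hs : Summable fun n : ℕ => C * ((n : ℝ) ^ 0 * Real.exp (-z.re * n) +
      2 * ((n : ℝ) ^ 1 * Real.exp (-z.re * n)) + (n : ℝ) ^ 2 * Real.exp (-z.re * n)) :=
    (((Real.summable_pow_mul_exp_neg_nat_mul 0 hz).add
      ((Real.summable_pow_mul_exp_neg_nat_mul 1 hz).mul_left 2)).add
      (Real.summable_pow_mul_exp_neg_nat_mul 2 hz)).mul_left C
  refine Summable.of_norm_bounded hs fun n => ?_
  have h1 : ‖Complex.exp (-(n * z))‖ = Real.exp (-z.re * n) := by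
    rw [Complex.norm_exp]
    congr 1
    simp
    ring
  have h2 : ‖(bn A B n : ℂ)‖ = |bn A B n| := by
    rw [Complex.norm_real, Real.norm_eq_abs]
  rw [norm_mul, h1, h2]
  have h3 : (1 + Real.log n) ^ 2 ≤ (1 + (n : ℝ)) ^ 2 := by
    have h4 : 0 ≤ Real.log n := Real.log_natCast_nonneg n
    have h5 : Real.log n ≤ n := by
      rcases Nat.eq_zero_or_pos n with h | h
      · simp [h]
      · exact (Real.log_le_sub_one_of_pos (by exact_mod_cast h)).trans (by linarith)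
    nlinarith
  have h6 : |bn A B n| ≤ C * (1 + (n : ℝ)) ^ 2 :=
    (hb n).trans (mul_le_mul_of_nonneg_left h3 hC.le)
  calc |bn A B n| * Real.exp (-z.re * n) ≤ C * (1 + (n : ℝ)) ^ 2 * Real.exp (-z.re * n) :=
        mul_le_mul_of_nonneg_right h6 (Real.exp_pos _).le
    _ = _ := by ring

/-- `|E|²` on the right half plane, `0` elsewhere: measurable. -/
noncomputable def gE (A B : ℝ) (z : ℂ) : ℝ≥0∞ :=
  ENNReal.ofReal (‖(if 0 < z.re then EE A B z else 0 : ℂ)‖ ^ 2)

theorem measurable_gE (h4 : DX2Statement) (A B : ℝ) : Measurable (gE A B) := by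
  have hset : MeasurableSet {z : ℂ | 0 < z.re} :=
    measurableSet_lt measurable_const Complex.measurable_re
  have h1 : Measurable fun z : ℂ => (if 0 < z.re then EE A B z else 0 : ℂ) := by
    refine measurable_of_tendsto_metrizable
      (f := fun (N : ℕ) (z : ℂ) => (if 0 < z.re then
        ∑ n ∈ Finset.range N, (bn A B n : ℂ) * Complex.exp (-(n * z)) else 0 : ℂ))
      (fun N => Measurable.ite hset ?_ measurable_const) ?_
    · refine Finset.measurable_sum _ fun n _ => ?_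
      fun_prop
    · rw [tendsto_pi_nhds]
      intro z
      by_cases hz : 0 < z.re
      · simp only [hz, if_true]
        exact (summable_EE h4 A B hz).hasSum.tendsto_sum_nat
      · simp only [hz, if_false]
        exact tendsto_const_nhds
  unfold gE
  exact ((h1.norm).pow_const 2).ennreal_ofReal

theorem zp_re_pos {u δ : ℝ} (h0 : 0 < δ) (h1 : δ ≤ 1 / 2) : 0 < (zp u δ).re := by
  have hw : (Complex.exp (u - δ * I)).im = -(Real.exp u * Real.sin δ) := by
    have e1 : (u - δ * I : ℂ).re = u := by simp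
    have e2 : (u - δ * I : ℂ).im = -δ := by simp
    rw [Complex.exp_im, e1, e2, Real.sin_neg]
    ring
  have hm : ∀ w : ℂ, ((2 * Real.pi : ℂ) * I * (w - 1)).re = -(2 * Real.pi * w.im) := by
    intro w
    simp
  have h2 : (zp u δ).re = 2 * Real.pi * (Real.exp u * Real.sin δ) := by
    unfold zp
    rw [hm, hw]
    ring
  rw [h2]
  have h3 : 0 < Real.sin δ := Real.sin_pos_of_pos_of_lt_pi h0 (by
    have := Real.pi_gt_three
    linarith)
  positivity

theorem one_add_sq_le_exp (x : ℝ) (hx : 0 ≤ x) : 1 + x ^ 2 ≤ Real.exp (20 * x) := by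
  have h := Real.quadratic_le_exp_of_nonneg (by positivity : 0 ≤ 20 * x)
  nlinarith

/-- The part `|u| > 1/2`. -/
theorem tail (A B C : ℝ) (hC : 0 < C)
    (hE : ∀ u δ : ℝ, 0 < δ → δ ≤ 1 / 2 → ‖EE A B (zp u δ)‖ ≤ C * Real.exp (2 * |u|) / δ ^ 2)
    (T H δ : ℝ) (hT : 10 < T) (hH : 10 * Real.sqrt (Real.log T) ≤ H) (hδ : 1 / T ≤ δ)
    (hδ' : δ ≤ 2 / T) :
    ∫⁻ u in (Icc (-(1 / 2) : ℝ) (1 / 2))ᶜ,
      ENNReal.ofReal (‖EE A B (zp u δ)‖ ^ 2 * Real.exp (-(H ^ 2 * u ^ 2) + u)) ≤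
      ENNReal.ofReal (4 * C ^ 2) := by
  have hT0 : 0 < T := by linarith
  have hL : 1 ≤ Real.log T := by
    rw [Real.le_log_iff_exp_le hT0]
    have := Real.exp_one_lt_d9
    linarith
  have hH2 : 100 * Real.log T ≤ H ^ 2 := by
    have h1 : (10 * Real.sqrt (Real.log T)) ^ 2 ≤ H ^ 2 := by
      apply pow_le_pow_left₀ (by positivity) hH
    rw [mul_pow, Real.sq_sqrt (by linarith)] at h1
    linarith
  have hδ0 : 0 < δ := lt_of_lt_of_le (by positivity) hδ
  have hδh : δ ≤ 1 / 2 := by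
    refine hδ'.trans ?_
    rw [div_le_iff₀ hT0]
    linarith
  have hpt : ∀ u ∈ (Icc (-(1 / 2) : ℝ) (1 / 2))ᶜ,
      ‖EE A B (zp u δ)‖ ^ 2 * Real.exp (-(H ^ 2 * u ^ 2) + u) ≤ C ^ 2 * (1 + u ^ 2)⁻¹ := by
    intro u hu
    have hu' : 1 / 2 < |u| := by
      by_contra hcon
      push Not at hcon
      exact hu (abs_le.1 hcon)
    have h1 : ‖EE A B (zp u δ)‖ ≤ C * Real.exp (2 * |u|) * Real.exp (2 * Real.log T) := by
      refine (hE u δ hδ0 hδh).trans ?_
      rw [div_eq_mul_inv]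
      refine mul_le_mul_of_nonneg_left ?_ (by positivity)
      have h2 : Real.exp (2 * Real.log T) = T ^ 2 := by
        rw [two_mul, Real.exp_add, Real.exp_log hT0]
        ring
      rw [h2, ← inv_pow]
      refine pow_le_pow_left₀ (by positivity) ?_ 2
      rw [inv_le_comm₀ hδ0 hT0]
      simpa using hδ
    have h3 : ‖EE A B (zp u δ)‖ ^ 2 ≤
        C ^ 2 * Real.exp (4 * |u| + 4 * Real.log T) := by
      refine (pow_le_pow_left₀ (norm_nonneg _) h1 2).trans_eq ?_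
      have e1 : Real.exp (4 * |u| + 4 * Real.log T) =
          Real.exp (2 * |u|) ^ 2 * Real.exp (2 * Real.log T) ^ 2 := by
        rw [← Real.exp_nat_mul, ← Real.exp_nat_mul, ← Real.exp_add]
        congr 1
        push_cast
        ring
      rw [e1]
      ring
    have h4 : 4 * |u| + 4 * Real.log T + (-(H ^ 2 * u ^ 2) + u) ≤ -(20 * |u|) := by
      have h5 : u ≤ |u| := le_abs_self u
      have h6 : |u| / 2 ≤ u ^ 2 := by
        rw [← sq_abs]
        nlinarith
      have h7 : 100 * Real.log T * (|u| / 2) ≤ H ^ 2 * u ^ 2 :=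
        mul_le_mul hH2 h6 (by positivity) (by positivity)
      nlinarith
    have h8 : (Real.exp (20 * |u|))⁻¹ ≤ (1 + u ^ 2)⁻¹ := by
      rw [← sq_abs u]
      exact inv_anti₀ (by positivity) (one_add_sq_le_exp _ (abs_nonneg u))
    calc ‖EE A B (zp u δ)‖ ^ 2 * Real.exp (-(H ^ 2 * u ^ 2) + u)
        ≤ C ^ 2 * Real.exp (4 * |u| + 4 * Real.log T) * Real.exp (-(H ^ 2 * u ^ 2) + u) :=
          mul_le_mul_of_nonneg_right h3 (Real.exp_pos _).le
      _ = C ^ 2 * Real.exp (4 * |u| + 4 * Real.log T + (-(H ^ 2 * u ^ 2) + u)) := by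
          rw [mul_assoc, ← Real.exp_add]
      _ ≤ C ^ 2 * Real.exp (-(20 * |u|)) :=
          mul_le_mul_of_nonneg_left (Real.exp_le_exp.2 h4) (by positivity)
      _ ≤ C ^ 2 * (1 + u ^ 2)⁻¹ := by
          rw [Real.exp_neg]
          exact mul_le_mul_of_nonneg_left h8 (by positivity)
  calc ∫⁻ u in (Icc (-(1 / 2) : ℝ) (1 / 2))ᶜ,
      ENNReal.ofReal (‖EE A B (zp u δ)‖ ^ 2 * Real.exp (-(H ^ 2 * u ^ 2) + u))
      ≤ ∫⁻ u in (Icc (-(1 / 2) : ℝ) (1 / 2))ᶜ, ENNReal.ofReal (C ^ 2 * (1 + u ^ 2)⁻¹) :=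
        setLIntegral_mono' measurableSet_Icc.compl fun u hu => ENNReal.ofReal_le_ofReal (hpt u hu)
    _ ≤ ∫⁻ u : ℝ, ENNReal.ofReal (C ^ 2 * (1 + u ^ 2)⁻¹) := setLIntegral_le_lintegral _ _
    _ = ENNReal.ofReal (∫ u : ℝ, C ^ 2 * (1 + u ^ 2)⁻¹) := by
        rw [ofReal_integral_eq_lintegral_ofReal (integrable_inv_one_add_sq.const_mul _)
          (Filter.Eventually.of_forall fun u => by positivity)]
    _ ≤ ENNReal.ofReal (4 * C ^ 2) := by
        apply ENNReal.ofReal_le_ofReal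
        rw [integral_const_mul, integral_univ_inv_one_add_sq]
        have := Real.pi_lt_four
        nlinarith [sq_nonneg C]

end H4

open H4 in
/-- A good `δ` exists. -/
theorem avg (h1 : AREStatement) (h2 : CHVStatement) (h3 : ETRStatement) (h4 : DX2Statement) :
    AVGStatement := by
  intro hRH A B D hD
  obtain ⟨a, b, R, κ₀, C₂, ha, hab, hR, hκ, hC₂, hchv⟩ := h2
  obtain ⟨C₁, T₁, hC₁, hT₁, hare⟩ := h1 hRH A B D hD a b R κ₀ ha hab hR hκ
  obtain ⟨-, C₃, hC₃, hetr⟩ := h3 A B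
  refine ⟨C₁ * C₂ + 4 * C₃ ^ 2 + 1, T₁, by positivity, hT₁, ?_⟩
  intro T H hT hH hHT
  have hT10 : 10 < T := lt_of_lt_of_le hT₁ hT
  have hT0 : 0 < T := by linarith
  have hL : 1 ≤ Real.log T := by
    rw [Real.le_log_iff_exp_le hT0]
    have := Real.exp_one_lt_d9
    linarith
  have hH1 : 1 ≤ H := by
    refine le_trans ?_ hH
    have : 1 ≤ Real.sqrt (Real.log T) := Real.one_le_sqrt.2 hL
    linarith
  have hH0 : 0 < H := by linarith
  by_contra hcon
  push Not at hcon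
  set Q : ℝ := T * Real.log T ^ 7 / H with hQ
  have hQ1 : 1 ≤ Q := by
    rw [hQ, le_div_iff₀ hH0, one_mul]
    calc H ≤ T := hHT
      _ ≤ T * Real.log T ^ 7 := le_mul_of_one_le_right hT0.le (one_le_pow₀ hL)
  have hin : ∀ δ ∈ Icc (1 / T) (2 / T), ENNReal.ofReal ((C₁ * C₂ + 1) * Q) ≤
      ∫⁻ u in Icc (-(1 / 2) : ℝ) (1 / 2),
        gE A B (zp u δ) * ENNReal.ofReal (Real.exp (-(H ^ 2 * u ^ 2) + u)) := by
    intro δ hδ
    have hδ0 : 0 < δ := lt_of_lt_of_le (by positivity) hδ.1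
    have hδh : δ ≤ 1 / 2 := by
      refine hδ.2.trans ?_
      rw [div_le_iff₀ hT0]
      linarith
    have e1 := hcon δ hδ
    have e2 := tail A B C₃ hC₃ hetr T H δ hT10 hH hδ.1 hδ.2
    rw [← lintegral_add_compl _ (measurableSet_Icc : MeasurableSet (Icc (-(1 / 2) : ℝ) (1 / 2)))]
      at e1
    have e3 : ENNReal.ofReal ((C₁ * C₂ + 1) * Q) + ENNReal.ofReal (4 * C₃ ^ 2) ≤
        ENNReal.ofReal ((C₁ * C₂ + 4 * C₃ ^ 2 + 1) * T * Real.log T ^ 7 / H) := by
      rw [← ENNReal.ofReal_add (by positivity) (by positivity)]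
      apply ENNReal.ofReal_le_ofReal
      have : (C₁ * C₂ + 4 * C₃ ^ 2 + 1) * T * Real.log T ^ 7 / H =
          (C₁ * C₂ + 1) * Q + 4 * C₃ ^ 2 * Q := by
        rw [hQ]
        ring
      rw [this]
      have : 4 * C₃ ^ 2 * 1 ≤ 4 * C₃ ^ 2 * Q := mul_le_mul_of_nonneg_left hQ1 (by positivity)
      linarith
    have e4 : ENNReal.ofReal ((C₁ * C₂ + 1) * Q) + ENNReal.ofReal (4 * C₃ ^ 2) <
        (∫⁻ u in Icc (-(1 / 2) : ℝ) (1 / 2),
          ENNReal.ofReal (‖EE A B (zp u δ)‖ ^ 2 * Real.exp (-(H ^ 2 * u ^ 2) + u))) +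
        ENNReal.ofReal (4 * C₃ ^ 2) :=
      (e3.trans_lt e1).trans_le (add_le_add le_rfl e2)
    have e5 := (ENNReal.add_lt_add_iff_right ENNReal.ofReal_ne_top).1 e4
    refine e5.le.trans (le_of_eq ?_)
    refine lintegral_congr fun u => ?_
    have hpos := zp_re_pos (u := u) hδ0 hδh
    unfold gE
    rw [if_pos hpos, ← ENNReal.ofReal_mul (by positivity)]
  have hlow : ENNReal.ofReal ((C₁ * C₂ + 1) * Q) * ENNReal.ofReal (1 / T) ≤
      ∫⁻ δ in Icc (1 / T) (2 / T), ∫⁻ u in Icc (-(1 / 2) : ℝ) (1 / 2),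
        gE A B (zp u δ) * ENNReal.ofReal (Real.exp (-(H ^ 2 * u ^ 2) + u)) := by
    have e1 : ∫⁻ _ in Icc (1 / T) (2 / T), ENNReal.ofReal ((C₁ * C₂ + 1) * Q) =
        ENNReal.ofReal ((C₁ * C₂ + 1) * Q) * ENNReal.ofReal (1 / T) := by
      rw [setLIntegral_const, Real.volume_Icc]
      congr 2
      ring
    rw [← e1]
    exact setLIntegral_mono' measurableSet_Icc hin
  have hup : ∫⁻ δ in Icc (1 / T) (2 / T), ∫⁻ u in Icc (-(1 / 2) : ℝ) (1 / 2),
        gE A B (zp u δ) * ENNReal.ofReal (Real.exp (-(H ^ 2 * u ^ 2) + u)) ≤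
      ENNReal.ofReal C₂ * ENNReal.ofReal (C₁ * Real.log T ^ 7 / H) := by
    refine (hchv (gE A B) (measurable_gE h4 A B) T H hT10.le hH1 hHT).trans ?_
    refine mul_le_mul' le_rfl ?_
    refine le_trans (le_of_eq ?_) (hare T H hT hH1 hHT)
    have hms : MeasurableSet {z : ℂ | a / T ≤ z.re ∧ z.re ≤ b / T ∧ |z.im| ≤ R} := by
      have m1 : MeasurableSet {z : ℂ | a / T ≤ z.re} :=
        measurableSet_le measurable_const Complex.measurable_re
      have m2 : MeasurableSet {z : ℂ | z.re ≤ b / T} :=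
        measurableSet_le Complex.measurable_re measurable_const
      have m3 : MeasurableSet {z : ℂ | |z.im| ≤ R} :=
        measurableSet_le (f := fun z : ℂ => |z.im|) (g := fun _ => R)
          Complex.measurable_im.norm measurable_const
      exact m1.inter (m2.inter m3)
    refine setLIntegral_congr_fun hms fun z hz => ?_
    have hpos : 0 < z.re := lt_of_lt_of_le (by positivity) hz.1
    simp only [gE]
    rw [if_pos hpos, ← ENNReal.ofReal_mul (by positivity)]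
  have hfin := hlow.trans hup
  rw [← ENNReal.ofReal_mul (by positivity), ← ENNReal.ofReal_mul hC₂.le,
    ENNReal.ofReal_le_ofReal_iff (by positivity)] at hfin
  have e6 : (C₁ * C₂ + 1) * Q * (1 / T) = (C₁ * C₂ + 1) * (Real.log T ^ 7 / H) := by
    rw [hQ]
    field_simp
  rw [e6] at hfin
  have e7 : C₂ * (C₁ * Real.log T ^ 7 / H) = C₁ * C₂ * (Real.log T ^ 7 / H) := by ring
  rw [e7] at hfin
  have e8 : 0 < Real.log T ^ 7 / H := by positivity
  nlinarith

end Pool.Agent.Lib.MP_6bc78b_nt.GP
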